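import Pool.Agent.Lib.MP_02973f_co.Shadow

/-!
Kalai's conjecture for all tight trees, for every number of vertices, in the form with the shadow.
-/

set_option autoImplicit false

namespace Pool.Agent.Results.MP_02973f_co.KalaiShadow

open Finset
open scoped FinsetFamily

/-- `e 0, ..., e (m-1)` are the edges of a tight `r`-tree on `ℓ` vertices. `H` is an `r`-graph on
`n` vertices without a copy of the tree, `∂ H` its shadow. -/
theorem result (r ℓ m : ℕ) (hr : 2 ≤ r) (hm : 0 < m) (e : ℕ → Finset (Fin ℓ))
    (h0 : (e 0).card = r)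
    (htree : ∀ i : ℕ, 0 < i → i < m → ∃ j : ℕ, j < i ∧
      ∃ S : Finset (Fin ℓ), S ⊆ e j ∧ S.card = r - 1 ∧
        ∃ v : Fin ℓ, v ∉ (Finset.range i).biUnion e ∧ e i = insert v S)
    (hcov : (Finset.range m).biUnion e = Finset.univ)
    (n : ℕ) (H : Finset (Finset (Fin n))) (hH : ∀ E ∈ H, E.card = r)
    (hfree : ¬ ∃ f : Fin ℓ ↪ Fin n, ∀ i : ℕ, i < m → (e i).map f ∈ H) :
    (H.card : ℝ) ≤ (((ℓ : ℝ) - r) / r) * (∂ H).card ∧ (∂ H).card ≤ n.choose (r - 1) := by
  obtain ⟨m, rfl⟩ : ∃ m', m = m' + 1 := ⟨m - 1, by omega⟩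
  have hroot : ∃ a : Fin r → Fin ℓ, Function.Injective a ∧ Finset.univ.image a = e 0 := by
    refine ⟨fun i => (e 0).orderEmbOfFin h0 i, ?_, ?_⟩
    · exact ((e 0).orderEmbOfFin h0).injective
    · ext w
      simp only [Finset.mem_image, Finset.mem_univ, true_and]
      rw [← Finset.mem_coe, ← Finset.range_orderEmbOfFin (e 0) h0, Set.mem_range]
  obtain ⟨a, ha, ha0⟩ := hroot
  obtain ⟨T, N, hT, hR, hN⟩ := Lib.MP_02973f_co.exists_shape e a ha ha0 m (by
    intro i hi hi'
    obtain ⟨j, hj, S, hS, hSr, v, hv, hev⟩ := htree i hi hi'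
    exact ⟨j, hj, S, hS, by omega, v, hv, hev⟩)
  have hcard : ℓ = r + m := by
    have h1 := Lib.MP_02973f_co.Rz_card T a N _ hR
    have h2 := Lib.MP_02973f_co.Rz_disjoint hR
    have h3 : (Finset.univ.image a ∪ N).card = ℓ := by
      rw [← hN, hcov, Finset.card_univ, Fintype.card_fin]
    rw [Finset.card_union_of_disjoint h2.symm, Finset.card_image_of_injective _ ha,
      Finset.card_univ, Fintype.card_fin] at h3
    omega
  constructor
  · by_cases hn : r ≤ n
    · have key := Lib.MP_02973f_co.kalai_shape_shadow H (by omega : 0 < r) hH T a N _ hR ha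
        (by rw [Fintype.card_fin]; exact hn) (by
          rintro ⟨f, hf, hfE⟩
          apply hfree
          rw [← hN, hcov, Finset.coe_univ, Set.injOn_univ] at hf
          refine ⟨⟨f, hf⟩, fun i hi => ?_⟩
          have := hfE (e i) (Finset.mem_image_of_mem _ (Finset.mem_range.mpr hi))
          rw [Finset.map_eq_image]
          exact this)
      rw [hT] at key
      have hr' : (0 : ℝ) < r := by
        have : 0 < r := by omega
        exact_mod_cast this
      rw [hcard]
      push_cast at key ⊢
      rw [div_mul_eq_mul_div, le_div_iff₀ hr']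
      linarith
    · have hH0 : H = ∅ := by
        rw [Finset.eq_empty_iff_forall_notMem]
        intro E hE
        have h1 := hH E hE
        have h2 : E.card ≤ n := by simpa using Finset.card_le_univ E
        omega
      rw [hH0, hcard]
      simp
  · have hs : (∂ H : Set (Finset (Fin n))).Sized (r - 1) := by
      intro E hE
      obtain ⟨z, hz, hzE⟩ := Finset.mem_shadow_iff_insert_mem.mp (Finset.mem_coe.mp hE)
      have := hH _ hzE
      rw [Finset.card_insert_of_notMem hz] at this
      omega
    have := hs.card_le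
    simpa using this

end Pool.Agent.Results.MP_02973f_co.KalaiShadow
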